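import Mathlib

namespace Pool.Agent.Results.MP_ff3c98_co.Bounded
open Finset MulAction
open scoped Classical

section grp
variable {Γ Ω : Type} [Group Γ] [Fintype Γ] [MulAction Γ Ω]

lemma fiber (B : Finset Ω) (H : Finset Γ) (g₀ : Γ) :
    #{g ∈ H | ∀ b ∈ B, g • b = g₀ • b} ≤ #{g : Γ | ∀ b ∈ B, g • b = b} := by
  refine card_le_card_of_injOn (fun g => g₀⁻¹ * g) ?_ (fun a _ b _ h => mul_left_cancel h)
  intro g hg
  simp only [coe_filter, Set.mem_ofPred_eq, mem_univ, true_and] at hg ⊢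
  intro b hb
  rw [mul_smul, hg.2 b hb, inv_smul_smul]

lemma count (B : Finset Ω) (t : Ω → Finset Ω) (H : Finset Γ) (m N : ℕ)
    (h : ∀ g ∈ H, ∀ b ∈ B, g • b ∈ t b) (hm : ∀ b ∈ B, #(t b) ≤ m)
    (hN : ∀ g₀ ∈ H, #{g ∈ H | ∀ b ∈ B, g • b = g₀ • b} ≤ N) : #H ≤ N * m ^ #B := by
  have h1 := card_le_mul_card_image (f := fun (g : Γ) (b : Ω) (_ : b ∈ B) => g • b) H N (by
    intro a ha
    obtain ⟨g₀, h0, rfl⟩ := mem_image.1 ha
    refine le_trans (card_le_card ?_) (hN g₀ h0)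
    intro g hg
    simp only [mem_filter] at hg ⊢
    exact ⟨hg.1, fun b hb => congrFun (congrFun hg.2 b) hb⟩)
  refine h1.trans (Nat.mul_le_mul_left _ ?_)
  calc _ ≤ #(B.pi t) := card_le_card (by
        intro a ha
        obtain ⟨g₀, h0, rfl⟩ := mem_image.1 ha
        exact mem_pi.2 (fun b hb => h g₀ h0 b hb))
    _ = ∏ b ∈ B, #(t b) := card_pi _ _
    _ ≤ m ^ #B := prod_le_pow_card _ _ _ hm

/-- orbit as a finset -/
noncomputable def orb (Γ : Type) {Ω : Type} [Group Γ] [Fintype Γ] [MulAction Γ Ω] (b : Ω) : Finset Ω :=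
  univ.image (fun g : Γ => g • b)

lemma orb_smul (g : Γ) (b : Ω) : orb Γ (g • b) = orb Γ b := by
  ext x
  simp only [orb, mem_image, mem_univ, true_and]
  exact ⟨fun ⟨h, e⟩ => ⟨h * g, by rw [mul_smul, e]⟩, fun ⟨h, e⟩ => ⟨h * g⁻¹, by
    rw [mul_smul, inv_smul_smul, e]⟩⟩

lemma fib_mul (b z : Ω) : #{g : Γ | g • b = z} * #(orb Γ b) ≤ Fintype.card Γ := by
  by_cases hz : ∃ g₀ : Γ, g₀ • b = z
  · obtain ⟨g₀, rfl⟩ := hz
    rw [← card_univ, card_eq_sum_card_image (fun g : Γ => g • b) univ, mul_comm, ← smul_eq_mul]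
    refine card_nsmul_le_sum _ _ _ ?_
    intro y hy
    obtain ⟨g₁, -, rfl⟩ := mem_image.1 hy
    refine card_le_card_of_injOn (fun g => g₁ * g₀⁻¹ * g) ?_ (fun a _ b _ h => mul_left_cancel h)
    intro g hg
    simp only [coe_filter, Set.mem_ofPred_eq, mem_univ, true_and] at hg ⊢
    rw [mul_smul, hg, mul_smul, inv_smul_smul]
  · push Not at hz
    rw [filter_false_of_mem (fun g _ => hz g)]
    simp

lemma avoid (B Z : Finset Ω) (M : ℕ) (hB : ∀ b ∈ B, M < #(orb Γ b)) (hM : #B * #Z ≤ M) :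
    ∃ γ : Γ, ∀ b ∈ B, γ • b ∉ Z := by
  by_contra hc
  push Not at hc
  have h1 : (univ : Finset Γ) ⊆ (B ×ˢ Z).biUnion (fun p => {g : Γ | g • p.1 = p.2}) := by
    intro g _
    obtain ⟨b, hb, hz⟩ := hc g
    exact mem_biUnion.2 ⟨(b, g • b), mem_product.2 ⟨hb, hz⟩, by simp⟩
  have h2 := (card_le_card h1).trans card_biUnion_le
  have h3 : (∑ p ∈ B ×ˢ Z, #{g : Γ | g • p.1 = p.2}) * (M + 1) ≤ #B * #Z * Fintype.card Γ := by
    rw [sum_mul, ← card_product, ← smul_eq_mul]
    refine sum_le_card_nsmul _ _ _ ?_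
    intro p hp
    exact (Nat.mul_le_mul_left _ (hB _ (mem_product.1 hp).1)).trans (fib_mul _ _)
  rw [card_univ] at h2
  have h4 : 0 < Fintype.card Γ := Fintype.card_pos
  have h5 := Nat.mul_le_mul_right (M + 1) h2
  have h6 := Nat.mul_le_mul_right (Fintype.card Γ) hM
  nlinarith

/-- size bound of the generic part -/
def tt (D N : ℕ) : ℕ := 2 * D + 1 + N * (2 * D + 1) ^ D
/-- orbit size that makes the construction work -/
def MM (D N : ℕ) : ℕ := D * (tt D N + 2 * (N * tt D N ^ D) * tt D N)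

lemma cnt2 (B F : Finset Ω) (D N t : ℕ) (hD : #B ≤ D) (ht : #F ≤ t) (h1 : 1 ≤ t)
    (hN : #{g : Γ | ∀ b ∈ B, g • b = b} ≤ N) :
    #{g : Γ | ∀ b ∈ B, g • b ∈ F} ≤ N * t ^ D :=
  (count B (fun _ => F) _ t N (fun g hg => (mem_filter.1 hg).2) (fun _ _ => ht)
    (fun g₀ _ => (fiber _ _ _).trans hN)).trans
    (Nat.mul_le_mul_left _ (Nat.pow_le_pow_right h1 hD))

lemma surj (F : Finset Ω) (g : Γ) (h : ∀ x ∈ F, g • x ∈ F) (x : Ω) (hx : x ∈ F) :
    ∃ y ∈ F, g • y = x := by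
  have : F.image (fun y => g • y) = F :=
    eq_of_subset_of_card_le (fun y hy => by
      obtain ⟨z, hz, rfl⟩ := mem_image.1 hy
      exact h z hz) (by rw [card_image_of_injective _ (MulAction.injective g)])
  rw [← this] at hx
  exact mem_image.1 hx

lemma build (P : Ω → Prop) (hP : ∀ (g : Γ) x, P x → P (g • x)) (B : Finset Ω) (D N : ℕ)
    (hBP : ∀ b ∈ B, P b) (hD : #B ≤ D) (hM : ∀ b ∈ B, MM D N < #(orb Γ b))
    (hB : ∀ g : Γ, (∀ b ∈ B, g • b = b) → ∀ x, P x → g • x = x)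
    (hN : #{g : Γ | ∀ x, P x → g • x = x} ≤ N) :
    ∃ F : Finset Ω, (∀ x ∈ F, P x) ∧ #F ≤ tt D N ∧
      ∀ g : Γ, (∀ x ∈ F, g • x ∈ F) → ∀ x, P x → g • x = x := by
  have ht1 : 2 * D + 1 ≤ tt D N := Nat.le_add_right _ _
  have hconj : ∀ γ g : Γ, (∀ b ∈ B, g • γ • b = γ • b) → ∀ x, P x → g • x = x := by
    intro γ g hg x hx
    have := hB (γ⁻¹ * g * γ) (fun b hb => by rw [mul_smul, mul_smul, hg b hb, inv_smul_smul])
      (γ⁻¹ • x) (hP _ _ hx)
    rw [mul_smul, mul_smul, smul_inv_smul] at this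
    exact MulAction.injective _ this
  obtain ⟨γ, hγ⟩ := avoid (Γ := Γ) B B _ hM (Nat.mul_le_mul hD (by omega))
  set B₂ := B.image (fun b => γ • b) with hB₂
  have hD₂ : #B₂ ≤ D := card_image_le.trans hD
  have hN₁ : #{g : Γ | ∀ b ∈ B, g • b = b} ≤ N :=
    (card_le_card (fun g hg => mem_filter.2 ⟨mem_univ _, hB g (mem_filter.1 hg).2⟩)).trans hN
  have hN₂ : #{g : Γ | ∀ b ∈ B₂, g • b = b} ≤ N := by
    refine (card_le_card (fun g hg => ?_)).trans hN
    have := (mem_filter.1 hg).2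
    exact mem_filter.2 ⟨mem_univ _, hconj γ g (fun b hb => this _ (mem_image_of_mem _ hb))⟩
  have h0 : #(B ∪ B₂) ≤ 2 * D := (card_union_le _ _).trans (by omega)
  have key : ∀ A : Finset Γ, (∀ a ∈ A, ¬ ∀ x, P x → a • x = x) → #A ≤ N * (2 * D + 1) ^ D →
      ∃ F : Finset Ω, B ∪ B₂ ⊆ F ∧ (∀ x ∈ F, P x) ∧ #F ≤ 2 * D + #A ∧
        ∀ g : Γ, (∀ x ∈ F, g • x ∈ F) → (∀ x ∈ B, g • x ∈ B ∪ B₂) ∧ g ∉ A := by
    intro A
    induction A using Finset.induction_on with
    | empty =>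
      intro _ _
      refine ⟨B ∪ B₂, Subset.rfl, ?_, by simpa using h0, fun g hg =>
        ⟨fun x hx => hg x (mem_union_left _ hx), notMem_empty _⟩⟩
      intro x hx
      rcases mem_union.1 hx with h | h
      · exact hBP x h
      · obtain ⟨b, hb, rfl⟩ := mem_image.1 h
        exact hP _ _ (hBP b hb)
    | insert a A ha ih =>
      intro hA hc
      rw [card_insert_of_notMem ha] at hc ⊢
      obtain ⟨F, hF0, hFP, hFc, hF⟩ := ih (fun a h => hA a (mem_insert_of_mem h)) (by omega)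
      have hFt : #F ≤ tt D N := by unfold tt; omega
      set GF : Finset Γ := univ.filter (fun g : Γ => ∀ b ∈ B, g • b ∈ F) ∪
        univ.filter (fun g : Γ => ∀ b ∈ B₂, g • b ∈ F) with hGF
      have hG : #GF ≤ 2 * (N * tt D N ^ D) := by
        have := cnt2 B F D N _ hD hFt (by omega) hN₁
        have := cnt2 B₂ F D N _ hD₂ hFt (by omega) hN₂
        exact (card_union_le _ _).trans (by omega)
      obtain ⟨δ, hδ⟩ := avoid (Γ := Γ) B (F ∪ GF.biUnion (fun h => F.image (fun y => h • y))) _ hM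
        (Nat.mul_le_mul hD ((card_union_le _ _).trans (Nat.add_le_add hFt
          ((card_biUnion_le_card_mul _ _ _ (fun h _ => card_image_le.trans hFt)).trans
            (Nat.mul_le_mul_right _ hG)))))
      obtain ⟨b, hb, hmv⟩ : ∃ b ∈ B, a • δ • b ≠ δ • b := by
        by_contra hn
        push Not at hn
        exact hA a (mem_insert_self _ _) (hconj δ a hn)
      have hx := hδ b hb
      rw [mem_union, not_or] at hx
      refine ⟨insert (δ • b) F, hF0.trans (subset_insert _ _), ?_, (card_insert_le _ _).trans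
        (by omega), ?_⟩
      · intro x h
        rcases mem_insert.1 h with rfl | h
        · exact hP _ _ (hBP b hb)
        · exact hFP x h
      intro g hg
      have hgG : g ∈ GF := by
        by_contra hn
        simp only [hGF, mem_union, mem_filter, mem_univ, true_and, not_or, not_forall] at hn
        obtain ⟨⟨u, hu, hu'⟩, ⟨v, hv, hv'⟩⟩ := hn
        have e1 := (mem_insert.1 (hg u (mem_insert_of_mem (hF0 (mem_union_left _ hu))))).resolve_right hu'
        have e2 := (mem_insert.1 (hg v (mem_insert_of_mem (hF0 (mem_union_right _ hv))))).resolve_right hv'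
        have : u = v := MulAction.injective g (e1.trans e2.symm)
        obtain ⟨w, hw, rfl⟩ := mem_image.1 hv
        exact hγ w hw (this ▸ hu)
      have hne : ∀ y ∈ F, g • y ≠ δ • b := fun y hy e =>
        hx.2 (mem_biUnion.2 ⟨g, hgG, mem_image.2 ⟨y, hy, e⟩⟩)
      obtain ⟨y, hy, e⟩ := surj _ g hg _ (mem_insert_self _ _)
      have hfix : g • δ • b = δ • b := by
        rcases mem_insert.1 hy with rfl | hy
        · exact e
        · exact absurd e (hne y hy)
      have := hF g (fun y hy => (mem_insert.1 (hg y (mem_insert_of_mem hy))).resolve_left (hne y hy))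
      refine ⟨this.1, fun h => ?_⟩
      rcases mem_insert.1 h with rfl | h
      · exact hmv hfix
      · exact this.2 h
  obtain ⟨F, -, hFP, hFc, hF⟩ := key
    {g ∈ ({g : Γ | ∀ b ∈ B, g • b ∈ B ∪ B₂} : Finset Γ) | ¬ ∀ x, P x → g • x = x}
    (fun a h => (mem_filter.1 h).2)
    ((card_filter_le _ _).trans (cnt2 B _ D N _ hD (by omega) (by omega) hN₁))
  refine ⟨F, hFP, ?_, fun g hg => ?_⟩
  · have := (card_filter_le _ (fun g : Γ => ¬ ∀ x, P x → g • x = x)).trans
      (cnt2 (Γ := Γ) B (B ∪ B₂) D N (2 * D + 1) hD (by omega) (by omega) hN₁)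
    unfold tt; omega
  · by_contra hn
    exact (hF g hg).2 (mem_filter.2 ⟨mem_filter.2 ⟨mem_univ _, (hF g hg).1⟩, hn⟩)

/-- scales -/
def sc (d : ℕ) : ℕ → ℕ
  | 0 => 1
  | i + 1 => sc d i + MM (d + sc d i ^ d) (sc d i ^ d)

lemma sc_pos (d i : ℕ) : 1 ≤ sc d i := by
  induction i with
  | zero => exact le_rfl
  | succ i ih => exact ih.trans (Nat.le_add_right _ _)

lemma gap (B : Finset Ω) (d : ℕ) (hd : #B ≤ d) :
    ∃ i ≤ d, ∀ b ∈ B, #(orb Γ b) ≤ sc d i ∨ sc d (i + 1) < #(orb Γ b) := by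
  by_contra hc
  push Not at hc
  have : ∀ i ≤ d + 1, i ≤ #{b ∈ B | #(orb Γ b) ≤ sc d i} := by
    intro i
    induction i with
    | zero => intro _; exact Nat.zero_le _
    | succ i ih =>
      intro hi
      obtain ⟨b, hb, h1, h2⟩ := hc i (by omega)
      refine (Nat.succ_le_succ (ih (by omega))).trans (card_lt_card ⟨?_, fun h => ?_⟩)
      · intro x hx
        exact mem_filter.2 ⟨(mem_filter.1 hx).1, (mem_filter.1 hx).2.trans (Nat.le_add_right _ _)⟩
      · exact absurd (mem_filter.1 (h (mem_filter.2 ⟨hb, h2⟩))).2 (by omega)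
  have h2 := (this (d + 1) le_rfl).trans (card_filter_le _ _)
  omega

theorem main (d : ℕ) (B S : Finset Ω) (hd : #B ≤ d) (hB : ∀ g : Γ, (∀ b ∈ B, g • b = b) → g = 1)
    (hS : ∀ g : Γ, (∀ x ∈ S, g • x ∈ S) → g = 1) :
    ∃ T : Finset Ω, #T ≤ ∑ i ∈ range (d + 1), (tt (d + sc d i ^ d) (sc d i ^ d) + sc d i ^ d) ∧
      ∀ g : Γ, (∀ x ∈ T, g • x ∈ T) → g = 1 := by
  obtain ⟨i, hi, hg⟩ := gap (Γ := Γ) B d hd
  set N := sc d i ^ d with hNdef
  let P : Ω → Prop := fun x => sc d (i + 1) < #(orb Γ x)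
  have hP : ∀ (g : Γ) x, P x → P (g • x) := fun g x h => by simpa only [P, orb_smul] using h
  have hP' : ∀ (g : Γ) x, P (g • x) → P x := fun g x h => by simpa only [P, orb_smul] using h
  set K₀ : Finset Γ := {g : Γ | ∀ b ∈ B, P b → g • b = b} with hK₀
  have hK : #K₀ ≤ N := by
    have := count (Γ := Γ) {b ∈ B | ¬ P b} (orb Γ) K₀ (sc d i) 1
      (fun g _ b _ => mem_image_of_mem _ (mem_univ g))
      (fun b hb => (hg b (mem_filter.1 hb).1).resolve_right (mem_filter.1 hb).2) (by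
        intro g₀ h0
        refine card_le_one.2 (fun a ha b hb => ?_)
        simp only [hK₀, mem_filter, mem_univ, true_and, and_imp] at ha hb
        have : b⁻¹ * a = 1 := hB _ (fun x hx => by
          rw [mul_smul, inv_smul_eq_iff]
          by_cases h : P x
          · rw [ha.1 x hx h, hb.1 x hx h]
          · rw [ha.2 x hx h, hb.2 x hx h])
        exact (inv_mul_eq_one.1 this).symm)
    rw [one_mul] at this
    exact this.trans (Nat.pow_le_pow_right (sc_pos _ _) ((card_filter_le _ _).trans hd))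
  have hy : ∀ g : Γ, ∃ Y : Finset Ω, #Y ≤ 1 ∧ (∀ y ∈ Y, P y) ∧
      ((∀ y ∈ Y, g • y = y) → ∀ x, P x → g • x = x) := by
    intro g
    by_cases h : ∀ x, P x → g • x = x
    · exact ⟨∅, by simp, by simp, fun _ => h⟩
    · push Not at h
      obtain ⟨x, hx, hx'⟩ := h
      exact ⟨{x}, by simp, by simpa using hx, fun h => absurd (h x (mem_singleton_self _)) hx'⟩
  choose Y hY1 hY2 hY3 using hy
  have hKK : ({g : Γ | ∀ x, P x → g • x = x} : Finset Γ) ⊆ K₀ := fun g h =>
    mem_filter.2 ⟨mem_univ _, fun b _ hb => (mem_filter.1 h).2 b hb⟩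
  have hBP : ∀ b ∈ ({b ∈ B | P b} : Finset Ω) ∪ K₀.biUnion Y, P b := by
    intro b hb
    rcases mem_union.1 hb with h | h
    · exact (mem_filter.1 h).2
    · obtain ⟨g, -, h⟩ := mem_biUnion.1 h
      exact hY2 g b h
  obtain ⟨F, hFP, hFc, hF⟩ := build P hP ({b ∈ B | P b} ∪ K₀.biUnion Y) (d + N) N hBP
    ((card_union_le _ _).trans (Nat.add_le_add ((card_filter_le _ _).trans hd)
      ((card_biUnion_le_card_mul _ _ 1 (fun g _ => hY1 g)).trans (by omega))))
    (fun b hb => lt_of_le_of_lt (Nat.le_add_left _ _) (hBP b hb))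
    (fun g h => hY3 g (fun y hy => h y (mem_union_right _ (mem_biUnion.2 ⟨g, mem_filter.2
      ⟨mem_univ _, fun b hb hb' => h b (mem_union_left _ (mem_filter.2 ⟨hb, hb'⟩))⟩, hy⟩))))
    ((card_le_card hKK).trans hK)
  have hs : ∀ g : Γ, ∃ W : Finset Ω, #W ≤ 1 ∧ W ⊆ S ∧ (∀ y ∈ W, ¬ P y) ∧
      ((∀ x, P x → g • x = x) → (∀ y ∈ W, g • y ∈ S) → g = 1) := by
    intro g
    by_cases h : (∀ x, P x → g • x = x) ∧ g ≠ 1
    · obtain ⟨x, hx, hx'⟩ : ∃ x ∈ S, g • x ∉ S := by
        by_contra hn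
        push Not at hn
        exact h.2 (hS g hn)
      refine ⟨{x}, by simp, by simpa using hx, ?_, fun _ h => absurd (h x (mem_singleton_self _)) hx'⟩
      intro y hy hp
      rw [mem_singleton.1 hy] at hp
      exact hx' ((h.1 x hp).symm ▸ hx)
    · exact ⟨∅, by simp, by simp, by simp, fun h1 _ => by_contra fun h2 => h ⟨h1, h2⟩⟩
  choose W hW1 hW2 hW3 hW4 using hs
  have hWP : ∀ y ∈ K₀.biUnion W, y ∈ S ∧ ¬ P y := fun y hy => by
    obtain ⟨g, -, h⟩ := mem_biUnion.1 hy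
    exact ⟨hW2 g h, hW3 g y h⟩
  refine ⟨F ∪ K₀.biUnion W, ?_, fun g hg => ?_⟩
  · refine le_trans ?_ (single_le_sum (f := fun i => tt (d + sc d i ^ d) (sc d i ^ d) + sc d i ^ d)
      (fun _ _ => Nat.zero_le _) (mem_range.2 (Nat.lt_succ_of_le hi)))
    exact (card_union_le _ _).trans (Nat.add_le_add hFc
      ((card_biUnion_le_card_mul _ _ 1 (fun g _ => hW1 g)).trans (by omega)))
  · have h1 := hF g (fun x hx => (mem_union.1 (hg x (mem_union_left _ hx))).resolve_right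
      (fun h => (hWP _ h).2 (hP g x (hFP x hx))))
    refine hW4 g h1 (fun y hy => ?_)
    have hy' : y ∈ K₀.biUnion W := mem_biUnion.2 ⟨g, hKK (mem_filter.2 ⟨mem_univ _, h1⟩), hy⟩
    rcases mem_union.1 (hg y (mem_union_right _ hy')) with h | h
    · exact absurd (hP' g y (hFP _ h)) (hWP y hy').2
    · exact (hWP _ h).1
end grp

variable {n : ℕ}

/-- only the identity automorphism preserves the colouring `c` -/
def Distinguishing (G : SimpleGraph (Fin n)) (c : Fin n → Fin 2) : Prop :=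
  ∀ φ : G ≃g G, (∀ v, c (φ v) = c v) → ∀ v, φ v = v

/-- only the identity automorphism fixes every vertex of `S` -/
def Determining (G : SimpleGraph (Fin n)) (S : Finset (Fin n)) : Prop :=
  ∀ φ : G ≃g G, (∀ v ∈ S, φ v = v) → ∀ v, φ v = v

/-- determining number -/
noncomputable def Det (G : SimpleGraph (Fin n)) : ℕ := sInf {k | ∃ S, Determining G S ∧ S.card = k}

/-- cost number -/
noncomputable def rho (G : SimpleGraph (Fin n)) : ℕ :=
  sInf {k | ∃ c i, Distinguishing G c ∧ (Finset.univ.filter (fun v => c v = i)).card = k}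

theorem result (d : ℕ) : ∃ C : ℕ, ∀ (n : ℕ) (G : SimpleGraph (Fin n)),
    (∃ c, Distinguishing G c) → Det G = d → rho G ≤ C := by
  refine ⟨∑ i ∈ range (d + 1), (tt (d + sc d i ^ d) (sc d i ^ d) + sc d i ^ d), ?_⟩
  rintro n G ⟨c, hc⟩ hd
  haveI : Finite (G ≃g G) := Finite.of_injective (fun (φ : G ≃g G) v => φ v) DFunLike.coe_injective
  letI : Fintype (G ≃g G) := Fintype.ofFinite _
  obtain ⟨B, hB, hBd⟩ : Det G ∈ {k | ∃ S, Determining G S ∧ S.card = k} :=
    Nat.sInf_mem ⟨_, univ, fun φ h v => h v (mem_univ _), rfl⟩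
  have two : ∀ (T : Finset (Fin n)) (g : G ≃g G), (∀ x ∈ T, g • x ∈ T) → ∀ x, g x ∈ T ↔ x ∈ T := by
    intro T g h x
    refine ⟨fun hx => ?_, h x⟩
    obtain ⟨y, hy, e⟩ := surj T g h _ hx
    exact g.injective e ▸ hy
  obtain ⟨T, hT, h⟩ := main (Γ := G ≃g G) d B {v | c v = 0} (hBd.trans hd).le
    (fun g h => RelIso.ext (hB g h)) (fun g h => RelIso.ext (hc g (fun v => by
      have := two _ g h v
      simp only [mem_filter, mem_univ, true_and] at this
      revert this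
      generalize c (g v) = a
      generalize c v = b
      revert a b
      decide)))
  refine le_trans (Nat.sInf_le ⟨fun v => if v ∈ T then 0 else 1, 0, fun φ hφ v => ?_, rfl⟩) ?_
  · have := h φ (fun x hx => by
      have := hφ x
      by_contra hn
      change φ x ∉ T at hn
      simp [hx, hn] at this)
    rw [this]; rfl
  · refine le_trans (card_le_card (fun v hv => ?_)) hT
    by_contra hn
    simp [hn] at hv

end Pool.Agent.Results.MP_ff3c98_co.Bounded
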